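import Pool.Agent.H509Z.GP.Limit
import Pool.Agent.H17Z.GP.BG
import Pool.Agent.H866Z.GP.Upper
import Pool.Agent.H221Z.GP.Cluster
import Pool.Agent.H199Z.GP.Det

/-!
Auxiliary lemmas for the assembly of the greedy lattice path limit.
-/

set_option autoImplicit false

open scoped ENNReal
open MeasureTheory ProbabilityTheory Filter Topology Set

namespace Pool.Agent.H742Z.GP

universe u

namespace Asm

lemma ofReal_abs_le (y : ℝ) : ENNReal.ofReal |y| ≤ ENNReal.ofReal y + ENNReal.ofReal (-y) := by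
  rcases le_total 0 y with h | h
  · rw [abs_of_nonneg h]; exact le_self_add
  · rw [abs_of_nonpos h]; exact le_add_self

lemma meas_abs {Ω : Type u} [MeasurableSpace Ω] {f : Ω → ℝ} (hf : Measurable f) (a : ℝ) :
    Measurable fun ω => ENNReal.ofReal |f ω - a| :=
  ENNReal.measurable_ofReal.comp ((hf.sub_const a).abs)

lemma cauchy_lim {Ω : Type u} [MeasurableSpace Ω] (P : Measure Ω) [IsProbabilityMeasure P]
    (f : ℕ → Ω → ℝ) (hf : ∀ n, Measurable (f n))
    (h : ∀ ε : ℝ, 0 < ε → ∃ m : ℝ, ∀ᶠ n in atTop,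
      ∫⁻ ω, ENNReal.ofReal |f n ω - m| ∂P ≤ ENNReal.ofReal ε) :
    ∃ M : ℝ, Tendsto (fun n => ∫⁻ ω, ENNReal.ofReal |f n ω - M| ∂P) atTop (𝓝 0) := by
  have tri : ∀ (n : ℕ) (a c : ℝ), ∫⁻ ω, ENNReal.ofReal |f n ω - a| ∂P ≤
      ∫⁻ ω, ENNReal.ofReal |f n ω - c| ∂P + ENNReal.ofReal |c - a| := by
    intro n a c
    calc ∫⁻ ω, ENNReal.ofReal |f n ω - a| ∂P
        ≤ ∫⁻ ω, (ENNReal.ofReal |f n ω - c| + ENNReal.ofReal |c - a|) ∂P := by
          refine lintegral_mono fun ω => ?_
          refine le_trans (ENNReal.ofReal_le_ofReal (abs_sub_le _ c _)) ENNReal.ofReal_add_le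
      _ = _ := by
          rw [lintegral_add_left (meas_abs (hf n) c)]
          simp
  have tri2 : ∀ (n : ℕ) (a c : ℝ), ENNReal.ofReal |a - c| ≤
      ∫⁻ ω, ENNReal.ofReal |f n ω - a| ∂P + ∫⁻ ω, ENNReal.ofReal |f n ω - c| ∂P := by
    intro n a c
    calc ENNReal.ofReal |a - c| = ∫⁻ _ω, ENNReal.ofReal |a - c| ∂P := by simp
      _ ≤ ∫⁻ ω, (ENNReal.ofReal |f n ω - a| + ENNReal.ofReal |f n ω - c|) ∂P := by
          refine lintegral_mono fun ω => ?_
          refine le_trans (ENNReal.ofReal_le_ofReal ?_) ENNReal.ofReal_add_le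
          rw [abs_sub_comm (f n ω) a]
          exact abs_sub_le _ _ _
      _ = _ := by rw [lintegral_add_left (meas_abs (hf n) a)]
  choose m hm using fun k : ℕ => h (1 / ((k : ℝ) + 1)) (by positivity)
  have hd : ∀ k l : ℕ, |m k - m l| ≤ 1 / ((k : ℝ) + 1) + 1 / ((l : ℝ) + 1) := by
    intro k l
    obtain ⟨n, h1, h2⟩ := ((hm k).and (hm l)).exists
    have := (tri2 n (m k) (m l)).trans (add_le_add h1 h2)
    rw [← ENNReal.ofReal_add (by positivity) (by positivity)] at this
    exact (ENNReal.ofReal_le_ofReal_iff (by positivity)).1 this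
  have h0 : Tendsto (fun k : ℕ => 1 / ((k : ℝ) + 1)) atTop (𝓝 0) :=
    tendsto_one_div_add_atTop_nhds_zero_nat
  have h2 : Tendsto (fun k : ℕ => 1 / ((k : ℝ) + 1) + 1 / ((k : ℝ) + 1)) atTop (𝓝 0) := by
    simpa using h0.add h0
  have hc : CauchySeq m := by
    refine cauchySeq_of_le_tendsto_0' _ (fun k l hkl => ?_) h2
    rw [Real.dist_eq]
    refine (hd k l).trans ?_
    have : (k : ℝ) ≤ l := by exact_mod_cast hkl
    gcongr
  obtain ⟨M, hM⟩ := cauchySeq_tendsto_of_complete hc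
  have hk : ∀ k : ℕ, |m k - M| ≤ 1 / ((k : ℝ) + 1) := by
    intro k
    have a1 : Tendsto (fun l => |m k - m l|) atTop (𝓝 |m k - M|) :=
      (tendsto_const_nhds.sub hM).abs
    have a2 : Tendsto (fun l : ℕ => 1 / ((k : ℝ) + 1) + 1 / ((l : ℝ) + 1)) atTop
        (𝓝 (1 / ((k : ℝ) + 1))) := by
      simpa using (tendsto_const_nhds (x := 1 / ((k : ℝ) + 1))).add h0
    exact le_of_tendsto_of_tendsto' a1 a2 (hd k)
  refine ⟨M, ENNReal.tendsto_nhds_zero.2 fun ε hε => ?_⟩
  have h3 : Tendsto (fun k : ℕ => ENNReal.ofReal (1 / ((k : ℝ) + 1) + 1 / ((k : ℝ) + 1))) atTop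
      (𝓝 0) := by
    simpa using ENNReal.tendsto_ofReal h2
  obtain ⟨k, hk'⟩ := (ENNReal.tendsto_nhds_zero.1 h3 ε hε).exists
  filter_upwards [hm k] with n hn
  refine (tri n M (m k)).trans (le_trans ?_ hk')
  rw [ENNReal.ofReal_add (by positivity) (by positivity)]
  exact add_le_add hn (ENNReal.ofReal_le_ofReal (hk k))

lemma lim_lower {Ω : Type u} [MeasurableSpace Ω] (P : Measure Ω) [IsProbabilityMeasure P]
    (f : ℕ → Ω → ℝ) (hf : ∀ n, Measurable (f n)) (m C : ℝ) (hC : 0 ≤ C) (a : ℕ → ℝ)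
    (ha0 : ∀ n, 0 ≤ a n) (ha : Tendsto a atTop (𝓝 0))
    (h1 : ∀ n, ∫⁻ ω, ENNReal.ofReal |f n ω - m| ∂P ≤ ENNReal.ofReal (a n))
    (h2 : ∀ᶠ n in atTop, ∫⁻ ω, ENNReal.ofReal (-f n ω) ∂P ≤ ENNReal.ofReal C) : -C ≤ m := by
  have key : ∀ᶠ n in atTop, -m ≤ a n + C := by
    filter_upwards [h2] with n hn
    have : ENNReal.ofReal (-m) ≤ ENNReal.ofReal (a n + C) := by
      calc ENNReal.ofReal (-m) = ∫⁻ _ω, ENNReal.ofReal (-m) ∂P := by simp
        _ ≤ ∫⁻ ω, (ENNReal.ofReal |f n ω - m| + ENNReal.ofReal (-f n ω)) ∂P := by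
            refine lintegral_mono fun ω => ?_
            refine le_trans (ENNReal.ofReal_le_ofReal ?_) ENNReal.ofReal_add_le
            linarith [le_abs_self (f n ω - m)]
        _ = _ := by rw [lintegral_add_left (meas_abs (hf n) m)]
        _ ≤ ENNReal.ofReal (a n) + ENNReal.ofReal C := add_le_add (h1 n) hn
        _ = _ := (ENNReal.ofReal_add (ha0 n) hC).symm
    exact (ENNReal.ofReal_le_ofReal_iff (add_nonneg (ha0 n) hC)).1 this
  have : -m ≤ 0 + C := ge_of_tendsto (ha.add_const C) key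
  linarith

lemma clip_lt {J K x : ℝ} (hJ : 0 ≤ J) {k : ℕ} (h : clip J K x < -(k : ℝ)) : x < -(k : ℝ) := by
  unfold clip at h
  have h1 : min x J < -(k : ℝ) := lt_of_le_of_lt (le_max_right _ _) h
  have hk : (0 : ℝ) ≤ k := Nat.cast_nonneg k
  rcases min_lt_iff.1 h1 with h2 | h2
  · exact h2
  · linarith

lemma clip_le {J K x : ℝ} (hJ : 0 ≤ J) (hK : 0 ≤ K) : clip J K x ≤ J := by
  unfold clip
  exact max_le (by linarith) (min_le_right _ _)

lemma abs_clip_le {J K x : ℝ} (hJ : 0 ≤ J) (hK : 0 ≤ K) : |clip J K x| ≤ J + K := by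
  have h1 := clip_le (x := x) hJ hK
  have h2 : -K ≤ clip J K x := le_max_left _ _
  rw [abs_le]; constructor <;> linarith

lemma measurable_clip (J K : ℝ) : Measurable (clip J K) := by
  unfold clip
  exact measurable_const.max (measurable_id.min measurable_const)

lemma zt_mono {d : ℕ} (S t : ℕ) {w w' : V d → ℝ}
    (h : ∀ (u : V d) (k : ℕ), w' u < -(k : ℝ) → w u < -(k : ℝ)) (v : V d) :
    zt S t w' v ≤ zt S t w v := by
  unfold zt
  refine ENNReal.tsum_le_tsum fun k => ?_
  have : cnt S w' v (k + t) ≤ cnt S w v (k + t) := by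
    unfold cnt
    refine Finset.card_le_card fun u hu => ?_
    rw [Finset.mem_filter] at hu ⊢
    exact ⟨hu.1, h u _ hu.2⟩
  split_ifs with h1 h2
  · exact le_rfl
  · exact absurd (h1.trans this) h2
  · exact zero_le
  · exact le_rfl

lemma rt_mono {d : ℕ} (S : ℕ) {w w' : V d → ℝ}
    (h : ∀ (u : V d) (k : ℕ), w' u < -(k : ℝ) → w u < -(k : ℝ)) :
    rt S w' ≤ rt S w := by
  unfold rt
  refine ENNReal.tsum_le_tsum fun k => ?_
  split_ifs with h1 h2
  · exact le_rfl
  · refine absurd (fun e => ?_) h2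
    obtain ⟨t, ht, hw⟩ := h1 e
    exact ⟨t, ht, h _ _ hw⟩
  · exact zero_le
  · exact le_rfl

/-- uniform integrability of the negative part -/
lemma ui {d : ℕ} (hd : 1 ≤ d) {S : ℕ} (hS : Surg d (2 * d * d - 1) S) {Ω : Type u}
    [MeasurableSpace Ω] (P : Measure Ω) (X : V d → Ω → ℝ) (hm : ∀ v, Measurable (X v))
    (W : V d → Ω → ℝ) (hW : ∀ (ω : Ω) (u : V d) (k : ℕ), W u ω < -(k : ℝ) → X u ω < -(k : ℝ))
    (B : Set Ω) (hB : MeasurableSet B) (t n : ℕ) (e₁ : ℝ≥0∞)
    (hz : ∀ v, ∫⁻ ω, zt S t (fun u => X u ω) v ∂P ≤ e₁) :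
    ∫⁻ ω, B.indicator (fun ω => ENNReal.ofReal (-G n 0 fun v => W v ω)) ω ∂P ≤
      S * ∫⁻ ω, rt S (fun u => X u ω) ∂P +
        ((2 * S + 1) ^ d : ℕ) * (((2 * d * (n + 2 * S + 3) : ℕ) : ℝ≥0∞) * (t * P B + e₁)) := by
  have hmz : ∀ v, Measurable fun ω => B.indicator (fun _ => (t : ℝ≥0∞)) ω +
      zt S t (fun u => X u ω) v := fun v =>
    (measurable_const.indicator hB).add (measurable_zt X hm S t v)
  calc ∫⁻ ω, B.indicator (fun ω => ENNReal.ofReal (-G n 0 fun v => W v ω)) ω ∂P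
      ≤ ∫⁻ ω, (S * rt S (fun u => X u ω) + ((2 * S + 1) ^ d : ℕ) *
          ∑ e : Fin d × Bool, ∑ k ∈ Finset.range (n + 2 * S + 3),
            (B.indicator (fun _ => (t : ℝ≥0∞)) ω + zt S t (fun u => X u ω) (ray e k))) ∂P := by
        refine lintegral_mono fun ω => ?_
        by_cases hω : ω ∈ B
        · simp only [Set.indicator_of_mem hω]
          refine (det_ui hd hS (fun v => W v ω) n t).trans ?_
          refine add_le_add (mul_le_mul_right (rt_mono S (hW ω)) _) (mul_le_mul_right ?_ _)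
          refine Finset.sum_le_sum fun e _ => Finset.sum_le_sum fun k _ => ?_
          exact add_le_add le_rfl (zt_mono S t (hW ω) _)
        · simp only [Set.indicator_of_notMem hω]
          exact zero_le
    _ = S * ∫⁻ ω, rt S (fun u => X u ω) ∂P + ((2 * S + 1) ^ d : ℕ) *
          ∑ e : Fin d × Bool, ∑ k ∈ Finset.range (n + 2 * S + 3),
            (t * P B + ∫⁻ ω, zt S t (fun u => X u ω) (ray e k) ∂P) := by
        rw [lintegral_add_left ((measurable_rt X hm S).const_mul _),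
          lintegral_const_mul _ (measurable_rt X hm S),
          lintegral_const_mul _ (Finset.measurable_sum _ fun e _ =>
            Finset.measurable_sum _ fun k _ => hmz _),
          lintegral_finsetSum _ fun e _ => Finset.measurable_sum _ fun k _ => hmz _]
        congr 2
        refine Finset.sum_congr rfl fun e _ => ?_
        rw [lintegral_finsetSum _ fun k _ => hmz _]
        refine Finset.sum_congr rfl fun k _ => ?_
        rw [lintegral_add_left (measurable_const.indicator hB), lintegral_indicator_const hB]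
    _ ≤ _ := by
        refine add_le_add le_rfl (mul_le_mul_right ?_ _)
        calc ∑ e : Fin d × Bool, ∑ k ∈ Finset.range (n + 2 * S + 3),
              (t * P B + ∫⁻ ω, zt S t (fun u => X u ω) (ray e k) ∂P)
            ≤ ∑ _e : Fin d × Bool, ∑ _k ∈ Finset.range (n + 2 * S + 3), (t * P B + e₁) :=
              Finset.sum_le_sum fun e _ => Finset.sum_le_sum fun k _ => add_le_add le_rfl (hz _)
          _ = _ := by
              simp only [Finset.sum_const, Finset.card_range, Finset.card_univ,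
                Fintype.card_prod, Fintype.card_fin, Fintype.card_bool, nsmul_eq_mul]
              push_cast
              ring

lemma list_upper {α : Type*} (l : List α) (w : α → ℝ) (J K : ℝ) :
    ENNReal.ofReal ((l.map w).sum - (l.map fun v => clip J K (w v)).sum) ≤
      (l.map fun v => ENNReal.ofReal (w v - J)).sum := by
  induction l with
  | nil => simp
  | cons x l ih =>
    simp only [List.map_cons, List.sum_cons]
    have e : w x + (l.map w).sum - (clip J K (w x) + (l.map fun v => clip J K (w v)).sum) =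
        (w x - clip J K (w x)) + ((l.map w).sum - (l.map fun v => clip J K (w v)).sum) := by ring
    rw [e]
    refine ENNReal.ofReal_add_le.trans (add_le_add ?_ ih)
    have h2 : min (w x) J ≤ clip J K (w x) := le_max_right _ _
    rcases le_total (w x) J with h | h
    · rw [min_eq_left h] at h2
      rw [ENNReal.ofReal_of_nonpos (by linarith)]
      exact zero_le
    · rw [min_eq_right h] at h2
      exact ENNReal.ofReal_le_ofReal (by linarith)

lemma upper_pt {d : ℕ} (hd : 1 ≤ d) (n : ℕ) (w : V d → ℝ) (J K y : ℝ) :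
    ENNReal.ofReal (G n 0 w - y) ≤ ENNReal.ofReal |(G n 0 fun v => clip J K (w v)) - y| +
      GE n 0 fun v => ENNReal.ofReal (w v - J) := by
  obtain ⟨l, hl, e⟩ := exists_G hd n 0 w
  have h1 := le_G hl fun v => clip J K (w v)
  have h2 := (list_upper l w J K).trans (le_GE hl fun v => ENNReal.ofReal (w v - J))
  refine le_trans (ENNReal.ofReal_le_ofReal ?_) (ENNReal.ofReal_add_le.trans (add_le_add le_rfl h2))
  rw [e]
  linarith [le_abs_self ((G n 0 fun v => clip J K (w v)) - y)]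

lemma tail_small {Ω : Type u} [MeasurableSpace Ω] (P : Measure Ω) [IsProbabilityMeasure P]
    (Y : Ω → ℝ) (hY : Measurable Y) (δ : ℝ) (hδ : 0 < δ) :
    ∀ᶠ K : ℕ in atTop, P {ω | Y ω < -(K : ℝ)} ≤ ENNReal.ofReal δ := by
  have h := tendsto_measure_iInter_atTop (μ := P) (s := fun K : ℕ => {ω | Y ω < -(K : ℝ)})
    (fun K => (measurableSet_lt hY measurable_const).nullMeasurableSet)
    (fun a b hab ω hω => by
      have : (a : ℝ) ≤ b := by exact_mod_cast hab
      simp only [Set.mem_setOf_eq] at hω ⊢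
      linarith) ⟨0, measure_ne_top _ _⟩
  have e : (⋂ K : ℕ, {ω | Y ω < -(K : ℝ)}) = ∅ := by
    ext ω
    simp only [Set.mem_iInter, Set.mem_setOf_eq, Set.mem_empty_iff_false, iff_false, not_forall,
      not_lt]
    obtain ⟨K, hK⟩ := exists_nat_ge (-Y ω)
    exact ⟨K, by linarith⟩
  rw [e, measure_empty] at h
  exact ENNReal.tendsto_nhds_zero.1 h _ (ENNReal.ofReal_pos.2 hδ)

end Asm

end Pool.Agent.H742Z.GP
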