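import Pool.Agent.H595Z.GP.Asm1

/-!
Assembly of the greedy lattice path limit.
-/

set_option autoImplicit false

open scoped ENNReal
open MeasureTheory ProbabilityTheory Filter Topology Set

namespace Pool.Agent.H742Z.GP

universe u

namespace Asm

lemma add_le_ofReal {x y : ℝ≥0∞} {a b : ℝ} (hx : x ≤ ENNReal.ofReal a) (hy : y ≤ ENNReal.ofReal b)
    (ha : 0 ≤ a) (hb : 0 ≤ b) : x + y ≤ ENNReal.ofReal (a + b) := by
  rw [ENNReal.ofReal_add ha hb]
  exact add_le_add hx hy

lemma mul_le_ofReal {x y : ℝ≥0∞} {a b : ℝ} (hx : x ≤ ENNReal.ofReal a) (hy : y ≤ ENNReal.ofReal b)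
    (ha : 0 ≤ a) : x * y ≤ ENNReal.ofReal (a * b) := by
  rw [ENNReal.ofReal_mul ha]
  exact mul_le_mul' hx hy

lemma nat_le_ofReal (n : ℕ) : (n : ℝ≥0∞) ≤ ENNReal.ofReal n := (ENNReal.ofReal_natCast n).ge

/-- uniform integrability with real constants -/
lemma ui_real {d : ℕ} (hd : 1 ≤ d) {S : ℕ} (hS : Surg d (2 * d * d - 1) S) {Ω : Type u}
    [MeasurableSpace Ω] (P : Measure Ω) (X : V d → Ω → ℝ) (hm : ∀ v, Measurable (X v))
    (W : V d → Ω → ℝ) (hW : ∀ (ω : Ω) (u : V d) (k : ℕ), W u ω < -(k : ℝ) → X u ω < -(k : ℝ))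
    (B : Set Ω) (hB : MeasurableSet B) (t n : ℕ) (e₁ R π : ℝ) (he₁ : 0 ≤ e₁) (hR : 0 ≤ R)
    (hπ : 0 ≤ π) (hz : ∀ v, ∫⁻ ω, zt S t (fun u => X u ω) v ∂P ≤ ENNReal.ofReal e₁)
    (hr : ∫⁻ ω, rt S (fun u => X u ω) ∂P ≤ ENNReal.ofReal R) (hPB : P B ≤ ENNReal.ofReal π) :
    ∫⁻ ω, B.indicator (fun ω => ENNReal.ofReal (-G n 0 fun v => W v ω)) ω ∂P ≤
      ENNReal.ofReal (S * R + (((2 * S + 1) ^ d : ℕ) : ℝ) *
        (((2 * d * (n + 2 * S + 3) : ℕ) : ℝ) * (t * π + e₁))) := by
  refine (ui hd hS P X hm W hW B hB t n _ hz).trans ?_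
  refine add_le_ofReal (mul_le_ofReal (nat_le_ofReal _) hr (by positivity))
    (mul_le_ofReal (nat_le_ofReal _) (mul_le_ofReal (nat_le_ofReal _)
      (add_le_ofReal (mul_le_ofReal (nat_le_ofReal _) hPB (by positivity)) le_rfl
        (by positivity) he₁) (by positivity)) (by positivity)) (by positivity) (by positivity)

/-- the estimate for one value of `n` -/
lemma one_n {d : ℕ} (hd : 1 ≤ d) {S : ℕ} (hS : Surg d (2 * d * d - 1) S) {Ω : Type u}
    [MeasurableSpace Ω] (P : Measure Ω) [IsProbabilityMeasure P] (X : V d → Ω → ℝ)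
    (hm : ∀ v, Measurable (X v)) (hid : ∀ v, IdentDistrib (X v) (X 0) P P)
    (J K C m : ℝ) (hJ : 0 ≤ J) (hK : 0 < K) (n N t b n' : ℕ) (hb : b = (2 * S + 1) ^ d)
    (hn' : n' = n + N * b) (hpos : 0 < n') (e e₁ R p a a' : ℝ) (he : 0 ≤ e) (he₁ : 0 ≤ e₁)
    (hR : 0 ≤ R) (hp : 0 ≤ p) (ha : 0 ≤ a) (ha' : 0 ≤ a')
    (hU : ∫⁻ ω, GE n 0 (fun v => ENNReal.ofReal (X v ω - J)) ∂P ≤ ENNReal.ofReal e * n)
    (hz1 : ∫⁻ ω, GE n' 0 (zt S t fun v => X v ω) ∂P ≤ ENNReal.ofReal e₁ * n')
    (hz2 : ∀ v, ∫⁻ ω, zt S t (fun u => X u ω) v ∂P ≤ ENNReal.ofReal e₁)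
    (hr : ∫⁻ ω, rt S (fun u => X u ω) ∂P ≤ ENNReal.ofReal R)
    (hP : P {ω | X 0 ω < -K} ≤ ENNReal.ofReal p)
    (h1 : ∫⁻ ω, ENNReal.ofReal |(G n 0 fun v => clip J K (X v ω)) - m * n| ∂P ≤
      ENNReal.ofReal (a * n))
    (h2 : ∫⁻ ω, ENNReal.ofReal |(G n' 0 fun v => clip J K (X v ω)) - m * n'| ∂P ≤
      ENNReal.ofReal (a' * n'))
    (hmC : -C + 1 ≤ m) (hN : (J + C) * n' ≤ K * N) :
    ∫⁻ ω, ENNReal.ofReal |G n 0 (fun v => X v ω) - m * n| ∂P ≤
      ENNReal.ofReal ((a * n + e * n) + ((|m| + 3 * J + t) * (N * b) + (a' * n' +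
        (b * (e₁ * n') + (|m| * n * (b * p + a') + (S * R + b *
          (((2 * d * (n + 2 * S + 3) : ℕ) : ℝ) * (t * (b * p + a') + e₁)))))))) := by
  have hmc : ∀ v, Measurable fun ω => clip J K (X v ω) := fun v =>
    (measurable_clip J K).comp (hm v)
  have hG : ∀ k : ℕ, Measurable fun ω => G k 0 fun v => clip J K (X v ω) := fun k =>
    measurable_G hd k 0 _ hmc
  have hGX : Measurable fun ω => G n 0 fun v => X v ω := measurable_G hd n 0 _ hm
  have hnR : (0 : ℝ) < n' := by exact_mod_cast hpos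
  set B : Set Ω := (⋃ v ∈ ball (0 : V d) S, {ω | X v ω < -K}) ∪
    {ω | (G n' 0 fun v => clip J K (X v ω)) < -(C * n')} with hBdef
  have hB : MeasurableSet B :=
    (Finset.measurableSet_biUnion _ fun v _ => measurableSet_lt (hm v) measurable_const).union
      (measurableSet_lt (hG n') measurable_const)
  have hPB : P B ≤ ENNReal.ofReal (b * p + a') := by
    refine (measure_union_le _ _).trans (add_le_ofReal ?_ ?_ (by positivity) ha')
    · refine (measure_biUnion_finset_le _ _).trans ?_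
      have : ∀ v ∈ ball (0 : V d) S, P {ω | X v ω < -K} ≤ ENNReal.ofReal p := by
        intro v _
        have := (hid v).measure_mem_eq (s := Set.Iio (-K)) measurableSet_Iio
        exact le_trans (le_of_eq this) hP
      refine (Finset.sum_le_card_nsmul _ _ _ this).trans ?_
      rw [card_ball, ← hb, nsmul_eq_mul]
      exact mul_le_ofReal (nat_le_ofReal _) le_rfl (by positivity)
    · have hM := mul_meas_ge_le_lintegral (μ := P) (meas_abs (hG n') (m * n'))
        (ENNReal.ofReal n')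
      have hsub : {ω | (G n' 0 fun v => clip J K (X v ω)) < -(C * n')} ⊆
          {ω | ENNReal.ofReal n' ≤
            ENNReal.ofReal |(G n' 0 fun v => clip J K (X v ω)) - m * n'|} := by
        intro ω hω
        refine ENNReal.ofReal_le_ofReal ?_
        have h3 : (G n' 0 fun v => clip J K (X v ω)) < -(C * n') := hω
        have h4 : (-C + 1) * n' ≤ m * n' := mul_le_mul_of_nonneg_right hmC hnR.le
        have h5 := neg_abs_le ((G n' 0 fun v => clip J K (X v ω)) - m * n')
        nlinarith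
      have h6 := (mul_le_mul_right (measure_mono (μ := P) hsub) (ENNReal.ofReal n')).trans
        (hM.trans h2)
      rw [mul_comm a', ENNReal.ofReal_mul hnR.le] at h6
      exact (ENNReal.mul_le_mul_iff_right (ENNReal.ofReal_pos.2 hnR).ne' ENNReal.ofReal_ne_top).1 h6
  have hup : ∫⁻ ω, ENNReal.ofReal (G n 0 (fun v => X v ω) - m * n) ∂P ≤
      ENNReal.ofReal (a * n + e * n) := by
    refine (lintegral_mono fun ω => upper_pt hd n (fun v => X v ω) J K (m * n)).trans ?_
    rw [lintegral_add_left (meas_abs (hG n) _)]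
    exact add_le_ofReal h1 (hU.trans (mul_le_ofReal le_rfl (nat_le_ofReal n) he))
      (by positivity) (by positivity)
  have hpt : ∀ ω, ENNReal.ofReal (-(G n 0 (fun v => X v ω) - m * n)) ≤
      ENNReal.ofReal ((|m| + 3 * J + t) * (N * b)) +
        (ENNReal.ofReal |(G n' 0 fun v => clip J K (X v ω)) - m * n'| +
          (b * GE n' 0 (zt S t fun v => X v ω) +
            (B.indicator (fun _ => ENNReal.ofReal (|m| * n)) ω +
              B.indicator (fun ω => ENNReal.ofReal (-G n 0 fun v => X v ω)) ω))) := by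
    intro ω
    by_cases hω : ω ∈ B
    · simp only [Set.indicator_of_mem hω]
      refine le_trans ?_ (le_add_left (le_add_left (le_add_left le_rfl)))
      refine le_trans (ENNReal.ofReal_le_ofReal ?_) ENNReal.ofReal_add_le
      have : m * n ≤ |m| * n := mul_le_mul_of_nonneg_right (le_abs_self m) (Nat.cast_nonneg n)
      linarith
    · simp only [Set.indicator_of_notMem hω, add_zero]
      have hω1 : ∀ v ∈ ball (0 : V d) S, -K ≤ X v ω := by
        intro v hv
        by_contra hc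
        exact hω (Or.inl (Set.mem_biUnion hv (not_le.1 hc)))
      have hω2 : -(C * n') ≤ G n' 0 fun v => clip J K (X v ω) := by
        by_contra hc
        exact hω (Or.inr (not_le.1 hc))
      have hdm := det_main hd hS (fun v => X v ω) J K C hJ hK n N t hω1
        (by rw [← hb, ← hn']; exact hω2) (by rw [← hb, ← hn']; exact hN)
      rw [← hb, ← hn'] at hdm
      have e1 : (n' : ℝ) = n + N * b := by rw [hn']; push_cast; ring
      have hNb : (0 : ℝ) ≤ N * b := by positivity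
      calc ENNReal.ofReal (-(G n 0 (fun v => X v ω) - m * n))
          ≤ ENNReal.ofReal (|m| * (N * b) +
              (|(G n' 0 fun v => clip J K (X v ω)) - m * n'| +
                ((G n' 0 fun v => clip J K (X v ω)) - G n 0 fun v => X v ω))) := by
            refine ENNReal.ofReal_le_ofReal ?_
            have h5 := neg_abs_le ((G n' 0 fun v => clip J K (X v ω)) - m * n')
            have h6 : -m * (N * b) ≤ |m| * (N * b) :=
              mul_le_mul_of_nonneg_right (neg_le_abs m) hNb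
            have h7 : m * n' = m * n + m * (N * b) := by rw [e1]; ring
            linarith
        _ ≤ ENNReal.ofReal (|m| * (N * b)) +
              (ENNReal.ofReal |(G n' 0 fun v => clip J K (X v ω)) - m * n'| +
                (ENNReal.ofReal ((3 * J + t) * (N * b : ℕ)) +
                  b * GE n' 0 (zt S t fun v => X v ω))) :=
            ENNReal.ofReal_add_le.trans (add_le_add le_rfl
              (ENNReal.ofReal_add_le.trans (add_le_add le_rfl hdm)))
        _ = _ := by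
            have : (|m| + 3 * J + t) * (N * b) = |m| * (N * b) + (3 * J + t) * (N * b : ℕ) := by
              push_cast; ring
            rw [this, ENNReal.ofReal_add (by positivity) (by positivity)]
            ring
  have hmz : Measurable fun ω => GE n' 0 (zt S t fun v => X v ω) :=
    measurable_GE n' 0 (fun v ω => zt S t (fun u => X u ω) v) fun v => measurable_zt X hm S t v
  have hlo : ∫⁻ ω, ENNReal.ofReal (-(G n 0 (fun v => X v ω) - m * n)) ∂P ≤
      ENNReal.ofReal ((|m| + 3 * J + t) * (N * b) + (a' * n' +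
        (b * (e₁ * n') + (|m| * n * (b * p + a') + (S * R + b *
          (((2 * d * (n + 2 * S + 3) : ℕ) : ℝ) * (t * (b * p + a') + e₁))))))) := by
    refine (lintegral_mono hpt).trans ?_
    rw [lintegral_add_left measurable_const, lintegral_add_left (meas_abs (hG n') _),
      lintegral_add_left (hmz.const_mul _), lintegral_add_left (measurable_const.indicator hB),
      lintegral_const_mul _ hmz, lintegral_indicator_const hB]
    have hui := ui_real hd hS P X hm X (fun _ _ _ h => h) B hB t n e₁ R (b * p + a') he₁ hR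
      (by positivity) hz2 hr hPB
    rw [← hb] at hui
    refine add_le_ofReal (by simp) (add_le_ofReal h2 (add_le_ofReal
      (mul_le_ofReal (nat_le_ofReal b) (hz1.trans (mul_le_ofReal le_rfl (nat_le_ofReal n') he₁))
        (by positivity))
      (add_le_ofReal (mul_le_ofReal le_rfl hPB (by positivity)) hui (by positivity)
        (by positivity)) (by positivity) (by positivity)) (by positivity) (by positivity))
      (by positivity) (by positivity)
  refine (lintegral_mono fun ω => ofReal_abs_le _).trans ?_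
  rw [lintegral_add_left
    (f := fun ω => ENNReal.ofReal (G n 0 (fun v => X v ω) - m * n))
    (ENNReal.measurable_ofReal.comp (hGX.sub_const _))]
  exact add_le_ofReal hup hlo (by positivity) (by positivity)

lemma scale {Ω : Type u} [MeasurableSpace Ω] (P : Measure Ω) (f : Ω → ℝ) (hf : Measurable f)
    (m : ℝ) {n : ℕ} (hn : 0 < n) :
    ∫⁻ ω, ENNReal.ofReal |f ω - m * n| ∂P =
      ENNReal.ofReal n * ∫⁻ ω, ENNReal.ofReal |f ω / n - m| ∂P := by
  have hnR : (0 : ℝ) < n := by exact_mod_cast hn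
  rw [← lintegral_const_mul _ (meas_abs (hf.div_const _) m)]
  refine lintegral_congr fun ω => ?_
  rw [← ENNReal.ofReal_mul hnR.le]
  congr 1
  have : f ω - m * n = n * (f ω / n - m) := by field_simp
  rw [this, abs_mul, abs_of_pos hnR]

lemma real_bound (ε n N b n' S R d t J L m e₁ p a a' D w : ℝ) (hn : 0 < n) (hb : 0 ≤ b)
    (ht : 0 ≤ t) (hJ : 0 ≤ J) (hm : |m| ≤ L) (he₁ : 0 ≤ e₁) (hp : 0 ≤ p) (hd : 0 ≤ d)
    (ha' : 0 ≤ a') (hN0 : 0 ≤ N) (hw : w ≤ 4 * d * n) (hn' : n' ≤ 2 * n)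
    (hD : 0 < D) (hN : N * D ≤ 2 * n) (c1 : (2 * b + 4 * d * b) * e₁ ≤ ε)
    (c2 : (L + 3 * J + t) * (2 * b) ≤ ε * D) (c3 : (L + 4 * d * b * t) * (b * p) ≤ ε)
    (c4 : a ≤ ε) (c5 : (2 + L + 4 * d * b * t) * a' ≤ ε) (c6 : S * R ≤ ε * n) :
    (a * n + ε * n) + ((|m| + 3 * J + t) * (N * b) + (a' * n' +
        (b * (e₁ * n') + (|m| * n * (b * p + a') + (S * R + b *
          (w * (t * (b * p + a') + e₁))))))) ≤ n * (7 * ε) := by
  have hL : 0 ≤ L := (abs_nonneg m).trans hm
  have t1 : a * n ≤ ε * n := by gcongr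
  have t2 : (|m| + 3 * J + t) * (N * b) ≤ ε * n := by
    have h1 : (|m| + 3 * J + t) * (N * b) ≤ (L + 3 * J + t) * (N * b) := by gcongr
    have h2 : (L + 3 * J + t) * (N * b) * D ≤ ε * n * D := by
      calc (L + 3 * J + t) * (N * b) * D = (L + 3 * J + t) * b * (N * D) := by ring
        _ ≤ (L + 3 * J + t) * b * (2 * n) := by gcongr
        _ = (L + 3 * J + t) * (2 * b) * n := by ring
        _ ≤ ε * D * n := by gcongr
        _ = ε * n * D := by ring
    exact h1.trans (le_of_mul_le_mul_right h2 hD)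
  have t3 : a' * n' ≤ a' * (2 * n) := by gcongr
  have t4 : b * (e₁ * n') ≤ b * (e₁ * (2 * n)) := by gcongr
  have t5 : |m| * n * (b * p + a') ≤ L * n * (b * p + a') := by gcongr
  have t6 : b * (w * (t * (b * p + a') + e₁)) ≤ b * (4 * d * n * (t * (b * p + a') + e₁)) := by
    gcongr
  have u1 : (2 * b + 4 * d * b) * e₁ * n ≤ ε * n := by gcongr
  have u3 : (L + 4 * d * b * t) * (b * p) * n ≤ ε * n := by gcongr
  have u5 : (2 + L + 4 * d * b * t) * a' * n ≤ ε * n := by gcongr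
  nlinarith

end Asm

open Asm in
theorem l1_limit {d : ℕ} (hd : 1 ≤ d) {S : ℕ} (hS : Surg d (2 * d * d - 1) S) {Ω : Type u} [MeasurableSpace Ω]
    (P : Measure Ω) [IsProbabilityMeasure P] (X : V d → Ω → ℝ) (hm : ∀ v, Measurable (X v))
    (hi : iIndepFun X P) (hid : ∀ v, IdentDistrib (X v) (X 0) P P)
    (hA : ∃ α : ℝ, 0 < α ∧ ∫⁻ ω, ENNReal.ofReal
      (max (X 0 ω) 0 ^ d * max (Real.log (max (X 0 ω) 0)) 0 ^ ((d : ℝ) + α)) ∂P < ∞)
    (hB : ∫⁻ t in Ioi (0 : ℝ), (P {ω | X 0 ω < -t}) ^ (2 * d) < ∞) :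
    ∃ M : ℝ, Tendsto (fun n : ℕ => ∫⁻ ω, ENNReal.ofReal |G n 0 (fun v => X v ω) / n - M| ∂P) atTop (𝓝 0) := by
  have hBG : BG.{u} d := bernoulli_greedy d hd
  have hGX : ∀ n : ℕ, Measurable fun ω => G n 0 fun v => X v ω := fun n =>
    measurable_G hd n 0 _ hm
  refine cauchy_lim P (fun n ω => G n 0 (fun v => X v ω) / n)
    (fun n => (hGX n).div_const _) fun ε₀ hε₀ => ?_
  obtain ⟨ε, hε, rfl⟩ : ∃ ε : ℝ, 0 < ε ∧ ε₀ = 7 * ε := ⟨ε₀ / 7, by positivity, by ring⟩
  obtain ⟨b, hb⟩ : ∃ b : ℕ, b = (2 * S + 1) ^ d := ⟨_, rfl⟩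
  have hb0 : (0 : ℝ) < b := by rw [hb]; positivity
  have hd0 : (0 : ℝ) < d := by exact_mod_cast hd
  obtain ⟨R, hR, hr⟩ : ∃ R : ℝ, 0 ≤ R ∧ ∫⁻ ω, rt S (fun u => X u ω) ∂P ≤ ENNReal.ofReal R :=
    ⟨_, ENNReal.toReal_nonneg,
      (ENNReal.ofReal_toReal (ray_tail hd P X hm hi hid hB S).ne).ge⟩
  obtain ⟨t₀, -, ht₀⟩ := cluster_tail hd hBG P X hm hi hid hB S (ENNReal.ofReal 1) (by simp)
  obtain ⟨C₀, hC₀⟩ : ∃ C₀ : ℝ, C₀ = S * R + b * (4 * d * (t₀ + 1)) := ⟨_, rfl⟩
  have hC0 : 0 ≤ C₀ := by rw [hC₀]; positivity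
  obtain ⟨J, hJ⟩ := upper_tail hd hBG P X hm hi hid hA (ENNReal.ofReal ε)
    (ENNReal.ofReal_pos.2 hε)
  have hJ0 : (0 : ℝ) ≤ J := Nat.cast_nonneg J
  obtain ⟨e₁, he₁, c1⟩ : ∃ e₁ : ℝ, 0 < e₁ ∧ (2 * b + 4 * d * b) * e₁ ≤ ε :=
    ⟨ε / (2 * b + 4 * d * b), by positivity, by field_simp; exact le_rfl⟩
  obtain ⟨t, hz1, hz2⟩ := cluster_tail hd hBG P X hm hi hid hB S (ENNReal.ofReal e₁)
    (ENNReal.ofReal_pos.2 he₁)
  obtain ⟨L, hL⟩ : ∃ L : ℝ, L = J + C₀ := ⟨_, rfl⟩
  have hL0 : 0 ≤ L := by rw [hL]; positivity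
  obtain ⟨D, hD⟩ := exists_nat_ge (max ((L + 3 * J + t) * (2 * b) / ε) (2 * b))
  have hD2 : (2 * b : ℝ) ≤ D := (le_max_right _ _).trans hD
  have hD0 : (0 : ℝ) < D := by linarith
  have hDn : 0 < D := by exact_mod_cast hD0
  have c2 : (L + 3 * J + t) * (2 * b) ≤ ε * D := by
    have := (le_max_left _ _).trans hD
    rw [div_le_iff₀ hε] at this
    linarith
  obtain ⟨p, hp, c3⟩ : ∃ p : ℝ, 0 < p ∧ (L + 4 * d * b * t) * (b * p) ≤ ε := by
    refine ⟨ε / ((L + 4 * d * b * t + 1) * b), by positivity, ?_⟩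
    have h1 : (L + 4 * d * b * t + 1) * (b * (ε / ((L + 4 * d * b * t + 1) * b))) = ε := by
      field_simp
    have h2 : 0 ≤ b * (ε / ((L + 4 * d * b * t + 1) * b)) := by positivity
    nlinarith
  obtain ⟨K, hP, hK1⟩ := ((tail_small P (X 0) (hm 0) p hp).and
    (tendsto_natCast_atTop_atTop.eventually_ge_atTop (2 * (J + (C₀ + 1)) * D : ℝ))).exists
  have hK0 : (0 : ℝ) < K := lt_of_lt_of_le (by positivity) hK1
  have hmc : ∀ v, Measurable fun ω => clip J K (X v ω) := fun v =>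
    (measurable_clip J K).comp (hm v)
  have hG : ∀ k : ℕ, Measurable fun ω => G k 0 fun v => clip J K (X v ω) := fun k =>
    measurable_G hd k 0 _ hmc
  obtain ⟨m, hlim⟩ := bounded_limit hd P (fun v ω => clip J K (X v ω)) hmc
    (hi.comp (fun _ => clip J K) fun _ => measurable_clip J K)
    (fun v => (hid v).comp (measurable_clip J K)) (J + K) fun v ω => abs_clip_le hJ0 hK0.le
  set a : ℕ → ℝ := fun n => ∫ ω, |(G n 0 fun v => clip J K (X v ω)) / n - m| ∂P with hadef
  have ha0 : ∀ n, 0 ≤ a n := fun n => integral_nonneg fun ω => abs_nonneg _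
  have haI : ∀ n : ℕ, ∫⁻ ω, ENNReal.ofReal |(G n 0 fun v => clip J K (X v ω)) / n - m| ∂P =
      ENNReal.ofReal (a n) := by
    intro n
    refine (ofReal_integral_eq_lintegral_ofReal ?_ (ae_of_all _ fun ω => abs_nonneg _)).symm
    refine Integrable.of_bound (((hG n).div_const _).sub_const m).abs.aestronglyMeasurable
      ((J + K) * n + |m|) (ae_of_all _ fun ω => ?_)
    rw [Real.norm_eq_abs, abs_abs]
    refine (abs_sub _ _).trans (add_le_add ?_ le_rfl)
    have h1 := abs_G_le hd n 0 (w := fun v => clip J K (X v ω)) (K := J + K)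
      fun v => abs_clip_le hJ0 hK0.le
    rcases Nat.eq_zero_or_pos n with rfl | hn
    · simp
    · have : (1 : ℝ) ≤ n := by exact_mod_cast hn
      rw [abs_div, Nat.abs_cast]
      exact (div_le_self (abs_nonneg _) this).trans h1
  have haS : ∀ n : ℕ, 0 < n →
      ∫⁻ ω, ENNReal.ofReal |(G n 0 fun v => clip J K (X v ω)) - m * n| ∂P ≤
        ENNReal.ofReal (a n * n) := by
    intro n hn
    rw [scale P _ (hG n) m hn, haI, mul_comm (a n), ENNReal.ofReal_mul (Nat.cast_nonneg n)]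
  have hm1 : -C₀ ≤ m := by
    refine lim_lower P (fun n ω => (G n 0 fun v => clip J K (X v ω)) / n)
      (fun n => (hG n).div_const _) m C₀ hC0 a ha0 hlim (fun n => (haI n).le) ?_
    filter_upwards [eventually_ge_atTop (2 * S + 3)] with n hn
    have hn1 : (1 : ℝ) ≤ n := by exact_mod_cast (by omega : 1 ≤ n)
    have hnR : (0 : ℝ) < n := by linarith
    have hn2 : (2 * S + 3 : ℝ) ≤ n := by exact_mod_cast hn
    have hui := ui_real hd hS P X hm (fun v ω => clip J K (X v ω))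
      (fun _ _ _ h => clip_lt hJ0 h) univ MeasurableSet.univ t₀ n 1 R 1 zero_le_one hR
      zero_le_one ht₀ hr (by simp)
    rw [← hb] at hui
    simp only [Set.indicator_univ] at hui
    have e : ∀ ω, ENNReal.ofReal (-((G n 0 fun v => clip J K (X v ω)) / n)) =
        ENNReal.ofReal (1 / n) * ENNReal.ofReal (-G n 0 fun v => clip J K (X v ω)) := by
      intro ω
      rw [← ENNReal.ofReal_mul (by positivity)]
      congr 1
      ring
    simp only [e]
    rw [lintegral_const_mul _ (f := fun ω => ENNReal.ofReal (-G n 0 fun v => clip J K (X v ω)))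
      (ENNReal.measurable_ofReal.comp (hG n).neg)]
    refine (mul_le_ofReal le_rfl hui (by positivity)).trans (ENNReal.ofReal_le_ofReal ?_)
    rw [one_div, inv_mul_le_iff₀ hnR, hC₀]
    push_cast
    have h1 : S * R ≤ n * (S * R) := le_mul_of_one_le_left (by positivity) hn1
    have h2 : (b : ℝ) * (2 * d * (n + 2 * S + 3) * (t₀ * 1 + 1)) ≤
        b * (2 * d * (n + n) * (t₀ * 1 + 1)) := by
      have h3 : (n + 2 * S + 3 : ℝ) ≤ n + n := by linarith
      gcongr ?_ * (2 * d * ?_ * _)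
    nlinarith
  have hm2 : m ≤ J := by
    have := lim_lower P (fun n ω => -((G n 0 fun v => clip J K (X v ω)) / n))
      (fun n => ((hG n).div_const _).neg) (-m) J hJ0 a ha0 hlim (fun n => by
        rw [← haI n]
        refine lintegral_mono fun ω => le_of_eq ?_
        congr 1
        rw [← abs_neg]
        congr 1
        ring) (by
        filter_upwards [eventually_ge_atTop 1] with n hn
        have hnR : (0 : ℝ) < n := by exact_mod_cast hn
        calc ∫⁻ ω, ENNReal.ofReal (- -((G n 0 fun v => clip J K (X v ω)) / n)) ∂P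
            ≤ ∫⁻ _ω, ENNReal.ofReal J ∂P := by
              refine lintegral_mono fun ω => ENNReal.ofReal_le_ofReal ?_
              rw [neg_neg, div_le_iff₀ hnR]
              have h1 := G_mono hd n 0 (w := fun v => clip J K (X v ω)) (w' := fun _ => J)
                fun v => clip_le hJ0 hK0.le
              have h2 := abs_G_le hd n 0 (w := fun _ => (J : ℝ)) (K := J)
                fun v => (abs_of_nonneg hJ0).le
              exact h1.trans ((le_abs_self _).trans h2)
          _ = _ := by simp)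
    linarith
  have hmL : |m| ≤ L := by
    rw [abs_le, hL]; constructor <;> linarith
  obtain ⟨δ, hδ, hδ1, hδ2⟩ : ∃ δ : ℝ, 0 < δ ∧ δ ≤ ε ∧ (2 + L + 4 * d * b * t) * δ ≤ ε := by
    refine ⟨ε / (2 + L + 4 * d * b * t), by positivity, ?_, by field_simp; exact le_rfl⟩
    refine div_le_self hε.le ?_
    have : (0 : ℝ) ≤ 4 * d * b * t := by positivity
    linarith
  obtain ⟨n₀, hn₀⟩ := eventually_atTop.1 (hlim.eventually (ge_mem_nhds hδ))
  refine ⟨m, ?_⟩
  filter_upwards [eventually_ge_atTop n₀, eventually_ge_atTop D, eventually_ge_atTop (2 * S + 3),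
    tendsto_natCast_atTop_atTop.eventually_ge_atTop (S * R / ε : ℝ)] with n h1 h2 h3 h4
  have hn : 0 < n := by omega
  have hnR : (0 : ℝ) < n := by exact_mod_cast hn
  obtain ⟨N, hN⟩ : ∃ N : ℕ, N = n / D + 1 := ⟨_, rfl⟩
  have hN1 : (N : ℝ) * D ≤ 2 * n := by
    have : N * D ≤ 2 * n := by
      have := Nat.div_mul_le_self n D
      rw [hN, add_mul]; omega
    exact_mod_cast this
  have hN2 : (n : ℝ) ≤ N * D := by
    have : n ≤ N * D := by
      have := Nat.lt_div_mul_add (a := n) hDn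
      rw [hN, add_mul]; omega
    exact_mod_cast this
  obtain ⟨n', hn'⟩ : ∃ n' : ℕ, n' = n + N * b := ⟨_, rfl⟩
  have hN0 : (0 : ℝ) ≤ N := Nat.cast_nonneg N
  have hn'2 : (n' : ℝ) ≤ 2 * n := by
    rw [hn']; push_cast
    have : (N : ℝ) * (2 * b) ≤ N * D := by gcongr
    linarith
  have hNK : (J + (C₀ + 1)) * n' ≤ K * N := by
    calc (J + (C₀ + 1)) * n' ≤ (J + (C₀ + 1)) * (2 * (N * D)) := by
          gcongr
          linarith
      _ = 2 * (J + (C₀ + 1)) * D * N := by ring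
      _ ≤ K * N := by gcongr
  have key := one_n hd hS P X hm hid J K (C₀ + 1) m hJ0 hK0 n N t b n' hb hn' (by omega)
    ε e₁ R p (a n) (a n') hε.le he₁.le hR hp.le (ha0 n) (ha0 n') (hJ n) (hz1 n') hz2 hr hP
    (haS n hn) (haS n' (by omega)) (by linarith) hNK
  have hw : ((2 * d * (n + 2 * S + 3) : ℕ) : ℝ) ≤ 4 * d * n := by
    have : 2 * d * (n + 2 * S + 3) ≤ 4 * d * n := by nlinarith
    exact_mod_cast this
  have c5 : (2 + L + 4 * d * b * t) * a n' ≤ ε := by
    refine le_trans ?_ hδ2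
    have := hn₀ n' (by omega)
    gcongr
  have c6 : S * R ≤ ε * n := by
    rw [div_le_iff₀ hε] at h4
    linarith
  have hrb := real_bound ε n N b n' S R d t J L m e₁ p (a n) (a n') D _ hnR hb0.le
    (Nat.cast_nonneg t) hJ0 hmL he₁.le hp.le hd0.le (ha0 n') hN0 hw hn'2 hD0 hN1 c1 c2 c3
    ((hn₀ n h1).trans hδ1) c5 c6
  have key2 := key.trans (ENNReal.ofReal_le_ofReal hrb)
  rw [scale P _ (hGX n) m hn, ENNReal.ofReal_mul hnR.le] at key2
  exact (ENNReal.mul_le_mul_iff_right (ENNReal.ofReal_pos.2 hnR).ne' ENNReal.ofReal_ne_top).1 key2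

end Pool.Agent.H742Z.GP
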